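import Pool.Agent.H523.ZG.Stm

set_option autoImplicit false

/-! # A kernel and the pairs of points of the circle -/

namespace Pool.Agent.H271.ZG

open Finset

/-- the square of the norm of a power sum -/
lemma sq_pow_sum {n : ℕ} (z : Fin n → ℂ) (hz : ∀ j, ‖z j‖ = 1) (m : ℕ) :
    ‖∑ j, z j ^ m‖ ^ 2 = ∑ j, ∑ k, Real.cos (m * Complex.arg (z j / z k)) := by
  have hre : ∀ j k, (z j ^ m * (starRingEnd ℂ) (z k ^ m)).re =
      Real.cos (m * Complex.arg (z j / z k)) := by
    intro j k
    have h0 : z k ≠ 0 := by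
      intro h
      have := hz k
      rw [h, norm_zero] at this
      exact one_ne_zero this.symm
    have h1 : (starRingEnd ℂ) (z k) = (z k)⁻¹ := by
      rw [Complex.inv_def, Complex.normSq_eq_norm_sq, hz k]
      simp
    have h2 : z j ^ m * (starRingEnd ℂ) (z k ^ m) = (z j / z k) ^ m := by
      rw [map_pow, h1, ← mul_pow, div_eq_mul_inv]
    have h3 : ‖z j / z k‖ = 1 := by
      rw [norm_div, hz j, hz k, div_one]
    have h4 : z j / z k = Complex.exp (Complex.arg (z j / z k) * Complex.I) := by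
      have := Complex.norm_mul_exp_arg_mul_I (z j / z k)
      rw [h3] at this
      simpa using this.symm
    rw [h2]
    have h5 : (z j / z k) ^ m = Complex.exp (((m * Complex.arg (z j / z k) : ℝ) : ℂ) * Complex.I) := by
      conv_lhs => rw [h4]
      rw [← Complex.exp_nat_mul]
      congr 1
      push_cast
      ring
    rw [h5, Complex.exp_ofReal_mul_I_re]
  have h6 : ((‖∑ j, z j ^ m‖ ^ 2 : ℝ) : ℂ) =
      (∑ j, z j ^ m) * (starRingEnd ℂ) (∑ j, z j ^ m) := by
    rw [Complex.mul_conj, Complex.normSq_eq_norm_sq]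
  have h7 : ‖∑ j, z j ^ m‖ ^ 2 =
      ((∑ j, z j ^ m) * (starRingEnd ℂ) (∑ j, z j ^ m)).re := by
    rw [← h6, Complex.ofReal_re]
  rw [h7, map_sum, Finset.sum_mul_sum, Complex.re_sum]
  refine Finset.sum_congr rfl fun j _ => ?_
  rw [Complex.re_sum]
  exact Finset.sum_congr rfl fun k _ => hre j k

theorem main : Pool.Agent.H523.ZG.S_P := by
  intro Z a M δ hδ hδπ hZ hH hpair
  obtain ⟨l, rfl⟩ : ∃ l : List ℂ, (l : Multiset ℂ) = Z := Quot.exists_rep Z
  set n := l.length with hn
  have hval : (l : Multiset ℂ) = (Finset.univ : Finset (Fin l.length)).val.map l.get := by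
    rw [Fin.univ_val_map, List.ofFn_get]
  set z : Fin n → ℂ := l.get with hzdef
  have hz : ∀ j, ‖z j‖ = 1 := fun j => hZ _ (by
    rw [Multiset.mem_coe]
    exact List.get_mem l j)
  have hcard : Multiset.card (l : Multiset ℂ) = n := Multiset.coe_card l
  have hsum : ∀ m : ℕ, ((l : Multiset ℂ).map (fun z => z ^ m)).sum = ∑ j, z j ^ m := by
    intro m
    rw [hval, Multiset.map_map]
    rfl
  let H : ℝ → ℝ := fun θ => a 0 + 2 * ∑ m ∈ Icc 1 M, a m * Real.cos (m * θ)
  have hoff : ∀ j k, j ≠ k → H (Complex.arg (z j / z k)) ≤ 0 := by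
    intro j k hjk
    have h1 : ({z j, z k} : Multiset ℂ) ≤ (l : Multiset ℂ) := by
      rw [hval]
      have h2 : ({j, k} : Finset (Fin l.length)).val ≤ (Finset.univ : Finset (Fin l.length)).val :=
        Finset.val_le_iff.2 (Finset.subset_univ _)
      have h3 := Multiset.map_le_map (f := l.get) h2
      have h4 : ({j, k} : Finset (Fin l.length)).val = ({j, k} : Multiset (Fin l.length)) := by
        rw [Finset.insert_val_of_notMem (by simpa using hjk)]
        rfl
      rw [h4] at h3
      rw [Multiset.insert_eq_cons, Multiset.map_cons, Multiset.map_singleton] at h3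
      exact h3
    have h2 := hpair _ _ h1
    refine hH _ ?_
    rw [← Real.cos_abs (Complex.arg (z j / z k))]
    exact Real.cos_le_cos_of_nonneg_of_le_pi hδ.le (Complex.abs_arg_le_pi _) h2
  have hdiag : ∀ j, H (Complex.arg (z j / z j)) = a 0 + 2 * ∑ m ∈ Icc 1 M, a m := by
    intro j
    have h0 : z j ≠ 0 := by
      intro h
      have := hz j
      rw [h, norm_zero] at this
      exact one_ne_zero this.symm
    simp [H, div_self h0, Complex.arg_one]
  have hL : a 0 * (n : ℝ) ^ 2 + 2 * ∑ m ∈ Icc 1 M, a m * ‖∑ j, z j ^ m‖ ^ 2 =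
      ∑ j, ∑ k, H (Complex.arg (z j / z k)) := by
    simp only [H, Finset.sum_add_distrib, ← Finset.mul_sum]
    congr 1
    · simp
      ring
    · congr 1
      have h1 : ∀ m ∈ Icc 1 M, a m * ‖∑ j, z j ^ m‖ ^ 2 =
          ∑ j, ∑ k, a m * Real.cos (m * Complex.arg (z j / z k)) := by
        intro m _
        rw [sq_pow_sum z hz m, Finset.mul_sum]
        exact Finset.sum_congr rfl fun j _ => Finset.mul_sum _ _ _
      rw [Finset.sum_congr rfl h1, Finset.sum_comm]
      exact Finset.sum_congr rfl fun j _ => Finset.sum_comm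
  rw [hcard]
  simp only [hsum]
  rw [hL]
  have hle : ∀ j k, H (Complex.arg (z j / z k)) ≤
      if j = k then a 0 + 2 * ∑ m ∈ Icc 1 M, a m else 0 := by
    intro j k
    by_cases h : j = k
    · rw [if_pos h, ← h, hdiag j]
    · rw [if_neg h]
      exact hoff j k h
  refine (Finset.sum_le_sum fun j _ => Finset.sum_le_sum fun k _ => hle j k).trans ?_
  refine le_of_eq ?_
  simp only [Finset.sum_ite_eq, Finset.mem_univ, if_true, Finset.sum_const, Finset.card_univ,
    Fintype.card_fin, nsmul_eq_mul]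

end Pool.Agent.H271.ZG
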